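import Mathlib
import Pool.Agent.R945.TP.Q1
import Pool.Agent.R945.TP.K3

set_option autoImplicit false

namespace Pool.Agent.Results.MP_0e3347_nt.Full

open Finset Matrix Pool.Agent.R945.TP Pool.Agent.Helper184.Chapman NumberField Module

/-- the determinant of `[x + (j-k+1|p) + (j|p) y + (k|p) z + (jk|p) w]`, `1 ≤ j, k ≤ (p-1)/2` -/
noncomputable def D (p : ℕ) [Fact p.Prime] (x y z w : ℂ) : ℂ :=
  (Matrix.of fun j k : Fin ((p - 1) / 2) =>
    x + ((legendreSym p (((j : ℤ) + 1) - ((k : ℤ) + 1) + 1) : ℤ) : ℂ)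
      + ((legendreSym p ((j : ℤ) + 1) : ℤ) : ℂ) * y
      + ((legendreSym p ((k : ℤ) + 1) : ℤ) : ℂ) * z
      + ((legendreSym p (((j : ℤ) + 1) * ((k : ℤ) + 1)) : ℤ) : ℂ) * w).det

/-- `ε` is the fundamental unit `> 1` of `K`, seen in `ℝ` through `φ` -/
def IsFundamentalUnit (K : Type) [Field K] [NumberField K] (φ : K →+* ℝ) (ε : ℝ) : Prop :=
  1 < ε ∧ ∀ x : ℝ, (∃ v : (𝓞 K)ˣ, φ ((v : 𝓞 K) : K) = x) ↔ ∃ n : ℤ, x = ε ^ n ∨ x = -ε ^ n

lemma D_eq (p : ℕ) [Fact p.Prime] (m : ℕ) (hm : p = 2 * m + 1) (x y z w : ℂ) :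
    D p x y z w = (Matrix.of fun i j : Fin m => CC p ℂ m i j + x + chi p ℂ (((i : ℕ) : ZMod p) + 1) * y
      + chi p ℂ (((j : ℕ) : ZMod p) + 1) * z
      + chi p ℂ (((i : ℕ) : ZMod p) + 1) * chi p ℂ (((j : ℕ) : ZMod p) + 1) * w).det := by
  have hm1 : (p - 1) / 2 = m := by omega
  unfold D
  rw [hm1]
  congr 1
  ext j k
  simp only [Matrix.of_apply, CC_apply, chi_apply]
  unfold legendreSym
  push_cast
  rw [map_mul]
  have e : ((((j : ℕ) : ZMod p) + 1) - (((k : ℕ) : ZMod p) + 1) + 1) = (((j : ℕ) : ZMod p) + 1) - ((k : ℕ) : ZMod p) := by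
    ring
  rw [e]
  push_cast
  ring

theorem result (p : ℕ) [Fact p.Prime] (h3p : 3 < p) :
    (p % 4 = 1 → ∀ (K : Type) [Field K] [NumberField K], finrank ℚ K = 2 →
      (∃ β : K, β ^ 2 = (p : K)) → ∀ (φ : K →+* ℝ) (ε : ℝ), IsFundamentalUnit K φ ε →
      ∀ a b : ℚ, ε ^ ((2 - legendreSym p 2) * (classNumber K : ℤ)) = a + b * Real.sqrt p →
      ∀ x y z w : ℂ, D p x y z w =
        (legendreSym p 2 : ℤ) * (((p : ℂ) - 1) / 2) * ((y + 1) * z - w * x)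
          + (p * b - a) * ((w + 1) * x - y * z)
          + (legendreSym p 2 : ℤ) * (b - a) * (w * (1 - x) + (y + 1) * (z + 1))) ∧
    (p % 4 = 3 → ∀ (K : Type) [Field K] [NumberField K], finrank ℚ K = 2 →
      (∃ β : K, β ^ 2 = -(p : K)) →
      ∀ x y z w : ℂ, D p x y z w =
        (w + 1) * x - y * z + (legendreSym p 2 : ℤ) * ((y + 1) * (z - 1) - w * (x + 1))
          + (-1) ^ ((classNumber K - 1) / 2) * (((p : ℂ) + 1) / 2) * (w * x - (y + 1) * z)) := by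
  have hp : p.Prime := Fact.out
  obtain ⟨m, hm⟩ : ∃ m, p = 2 * m + 1 := by
    rcases hp.eq_two_or_odd with h | h
    · omega
    · exact ⟨p / 2, by omega⟩
  have hL : legendreSym p 2 = quadraticChar (ZMod p) 2 := by unfold legendreSym; push_cast; rfl
  have hpm : (p : ℂ) = 2 * m + 1 := by
    have := congrArg (Nat.cast : ℕ → ℂ) hm
    push_cast at this; exact this
  constructor
  · intro h1 K _ _ h2 ⟨β, hβ⟩ φ ε hε a b hab x y z w
    obtain ⟨D', -, -⟩ := dat_of h1 m hm K h2 β hβ φ ε hε a b hab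
    have hm' : ((p : ℂ) - 1) / 2 = m := by rw [hpm]; ring
    rw [D_eq p m hm, D'.main_C, chi_apply, hL, hm']
  · intro h3 K _ _ h2 ⟨β, hβ⟩ x y z w
    obtain ⟨κ, D'⟩ := dat3 h3 m hm
    have hm' : ((p : ℂ) + 1) / 2 = m + 1 := by rw [hpm]; ring
    have hκ := D'.kappa (by omega) K h2 β hβ
    rw [D_eq p m hm, D'.main_C (by omega), hm', hL, ← hκ, chi_apply]
    ring

end Pool.Agent.Results.MP_0e3347_nt.Full
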